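import Pool.Agent.Lib.MP_668c10_co.Defs
import Pool.Agent.Lib.MP_668c10_co.Q1

namespace Pool.Agent.Results.MP_668c10_co.DesWilfQ1

open Pool.Agent.Lib.MP_668c10_co

/-- Q1 of MP_668c10_co, answered positively: the shaded patterns `1243` and `3412` are
des-Wilf equivalent. -/
theorem result : DesWilf {![1, 2, 4, 3]} {![3, 4, 1, 2]} := main

end Pool.Agent.Results.MP_668c10_co.DesWilfQ1
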