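import Mathlib

namespace Pool.Agent.Results.MP_668c10_co.DesWilfQ2

open Polynomial
open scoped Classical

/-- `σ` contains `p̂`: there are indices `i₁ < i₂ < i₃ < i₄` with `i₂ = i₁ + 1` at which `σ` is
order-isomorphic to `p` (given by its one-line word). -/
def Contains (p : Fin 4 → ℕ) {n : ℕ} (σ : Equiv.Perm (Fin n)) : Prop :=
  ∃ i : Fin 4 → Fin n, StrictMono i ∧ (i 1 : ℕ) = (i 0 : ℕ) + 1 ∧
    ∀ a b : Fin 4, σ (i a) < σ (i b) ↔ p a < p b

/-- number of descents -/
noncomputable def des {n : ℕ} (σ : Equiv.Perm (Fin n)) : ℕ :=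
  (Finset.univ.filter (fun i : Fin n => ∃ j : Fin n, (j : ℕ) = i + 1 ∧ σ j < σ i)).card

/-- the descent polynomial `F_n^des(Π; q)` of the permutations of size `n` avoiding all patterns in
the set `Pi` (with `q = X`) -/
noncomputable def desPoly (n : ℕ) (Pi : Set (Fin 4 → ℕ)) : ℤ[X] :=
  ∑ σ ∈ Finset.univ.filter (fun σ : Equiv.Perm (Fin n) => ∀ p ∈ Pi, ¬ Contains p σ), X ^ des σ

/-- Two sets of patterns are des-Wilf equivalent if their descent polynomials agree for all
`n ≥ 1`. -/
def DesWilfEquivalent (A B : Set (Fin 4 → ℕ)) : Prop := ∀ n ≥ 1, desPoly n A = desPoly n B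

section Lists

variable (R : ℕ → ℕ → Prop)

/-- the pair `x, y` together with two later letters `c, d` (in this order) with
`min x y < d < max x y < c` -/
def bad (x y : ℕ) : List ℕ → Prop
  | [] => False
  | c :: l => (max x y < c ∧ ∃ d ∈ l, min x y < d ∧ d < max x y) ∨ bad x y l

/-- number of adjacent pairs not in relation `R` -/
noncomputable def cnt : List ℕ → ℕ
  | [] => 0
  | [_] => 0
  | x :: y :: l => (if R x y then 0 else 1) + cnt (y :: l)

def Av : List ℕ → Prop
  | [] => True
  | [_] => True
  | x :: y :: l => ¬ (R x y ∧ bad x y l) ∧ Av (y :: l)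

def NS (T : Finset ℕ) : List ℕ → Prop
  | [] => True
  | [_] => True
  | x :: y :: l => (R x y → ∀ d ∈ T, ¬ (min x y < d ∧ d < max x y)) ∧ NS T (y :: l)

noncomputable def wt (T : Finset ℕ) (l : List ℕ) : ℤ[X] :=
  if Av R l ∧ NS R T l then X ^ (cnt R l) else 0

/-- all arrangements of the finite set `U` -/
noncomputable def arr (U : Finset ℕ) : Finset (List ℕ) :=
  ⟨U.val.lists, Multiset.lists_nodup_finset U⟩

theorem mem_arr (U : Finset ℕ) (l : List ℕ) : l ∈ arr U ↔ l.Nodup ∧ ∀ x, x ∈ l ↔ x ∈ U := by
  have h : l ∈ arr U ↔ U.val = (l : Multiset ℕ) := by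
    unfold arr
    rw [Finset.mem_mk, Multiset.mem_lists_iff]
    rfl
  rw [h]
  constructor
  · intro h
    refine ⟨?_, ?_⟩
    · have := U.nodup
      rw [h] at this
      simpa using this
    · intro x
      rw [← Finset.mem_val, h]
      simp
  · rintro ⟨h1, h2⟩
    rw [Multiset.Nodup.ext U.nodup (by simpa using h1)]
    intro x
    simp [h2]

noncomputable def W (U T : Finset ℕ) : ℤ[X] := ∑ l ∈ arr U, wt R T l

/-- decomposition at an element -/
theorem sum_arr_decomp (U : Finset ℕ) (M : ℕ) (hM : M ∈ U) (f : List ℕ → ℤ[X]) :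
    ∑ l ∈ arr U, f l = ∑ T ∈ (U.erase M).powerset,
      ∑ P ∈ arr ((U.erase M) \ T), ∑ S ∈ arr T, f (P ++ M :: S) := by
  have : ∀ T ∈ (U.erase M).powerset, ∑ P ∈ arr ((U.erase M) \ T), ∑ S ∈ arr T, f (P ++ M :: S)
      = ∑ p ∈ arr ((U.erase M) \ T) ×ˢ arr T, f (p.1 ++ M :: p.2) := by
    intro T _
    rw [Finset.sum_product]
  rw [Finset.sum_congr rfl this, Finset.sum_sigma']
  symm
  apply Finset.sum_bij (fun (q : (_ : Finset ℕ) × (List ℕ × List ℕ)) _ => q.2.1 ++ M :: q.2.2)
  · rintro ⟨T, P, S⟩ h
    simp only [Finset.mem_sigma, Finset.mem_powerset, Finset.mem_product, mem_arr,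
      Finset.mem_sdiff, Finset.mem_erase] at h ⊢
    obtain ⟨hT, ⟨hP, hP'⟩, hS, hS'⟩ := h
    have hT' : ∀ x ∈ T, x ≠ M ∧ x ∈ U := fun x hx => by
      have := hT hx
      simpa using this
    refine ⟨?_, ?_⟩
    · rw [List.nodup_append]
      refine ⟨hP, ?_, ?_⟩
      · rw [List.nodup_cons]
        refine ⟨?_, hS⟩
        rw [hS']
        intro h
        exact (hT' _ h).1 rfl
      · intro a ha b hb hab
        subst hab
        rw [hP'] at ha
        rw [List.mem_cons, hS'] at hb
        rcases hb with hb | hb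
        · exact ha.1.1 hb
        · exact ha.2 hb
    · intro x
      rw [List.mem_append, List.mem_cons, hP', hS']
      constructor
      · rintro (h | h | h)
        · exact h.1.2
        · rw [h]; exact hM
        · exact (hT' _ h).2
      · intro h
        by_cases h1 : x = M
        · exact Or.inr (Or.inl h1)
        · by_cases h2 : x ∈ T
          · exact Or.inr (Or.inr h2)
          · exact Or.inl ⟨⟨h1, h⟩, h2⟩
  · rintro ⟨T, P, S⟩ h ⟨T', P', S'⟩ h' heq
    simp only [Finset.mem_sigma, Finset.mem_powerset, Finset.mem_product, mem_arr,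
      Finset.mem_sdiff, Finset.mem_erase] at h h' heq
    obtain ⟨hT, ⟨hP, hP1⟩, hS, hS1⟩ := h
    obtain ⟨hT', ⟨hP', hP1'⟩, hS', hS1'⟩ := h'
    have h1 : M ∉ P := by rw [hP1]; simp
    have h2 : M ∉ P' := by rw [hP1']; simp
    have h3 : M ∉ S := by
      rw [hS1]; intro h; have := hT h; simp at this
    have h4 : M ∉ S' := by
      rw [hS1']; intro h; have := hT' h; simp at this
    have := (List.append_cons_inj_of_notMem h1 h3).1 heq
    obtain ⟨e1, _, e2⟩ := this
    subst e1 e2
    have : T = T' := by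
      ext x
      rw [← hS1, hS1']
    subst this
    rfl
  · intro l hl
    rw [mem_arr] at hl
    obtain ⟨hnd, hmem⟩ := hl
    obtain ⟨P, S, rfl⟩ := List.append_of_mem ((hmem M).2 hM)
    rw [List.nodup_append] at hnd
    obtain ⟨hP, hMS, hdis⟩ := hnd
    rw [List.nodup_cons] at hMS
    refine ⟨⟨S.toFinset, P, S⟩, ?_, rfl⟩
    simp only [Finset.mem_sigma, Finset.mem_powerset, Finset.mem_product, mem_arr,
      Finset.mem_sdiff, Finset.mem_erase]
    refine ⟨?_, ⟨hP, ?_⟩, hMS.2, ?_⟩
    · intro x hx
      rw [List.mem_toFinset] at hx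
      rw [Finset.mem_erase]
      refine ⟨?_, ?_⟩
      · rintro rfl; exact hMS.1 hx
      · rw [← hmem]; simp [hx]
    · intro x
      rw [List.mem_toFinset, ← hmem]
      constructor
      · intro hx
        refine ⟨⟨?_, ?_⟩, ?_⟩
        · rintro rfl
          exact hdis _ hx _ (by simp) rfl
        · simp [hx]
        · intro hx'
          exact hdis _ hx _ (by simp [hx']) rfl
      · rintro ⟨⟨h1, h2⟩, h3⟩
        rw [List.mem_append, List.mem_cons] at h2
        rcases h2 with h | h | h
        · exact h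
        · exact absurd h h1
        · exact absurd h h3
    · intro x
      rw [List.mem_toFinset]
  · rintro ⟨T, P, S⟩ _
    rfl

/-- decomposition of a sum supported on concatenations -/
theorem sum_arr_append (A B : Finset ℕ) (hAB : Disjoint A B) (f : List ℕ → ℤ[X])
    (hf : ∀ l ∈ arr (A ∪ B), f l ≠ 0 → ∃ P Q, l = P ++ Q ∧ (∀ x ∈ P, x ∈ A) ∧ (∀ x ∈ Q, x ∈ B)) :
    ∑ l ∈ arr (A ∪ B), f l = ∑ P ∈ arr A, ∑ Q ∈ arr B, f (P ++ Q) := by
  rw [← Finset.sum_product']
  symm
  apply Finset.sum_bij_ne_zero (fun (q : List ℕ × List ℕ) _ _ => q.1 ++ q.2)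
  · rintro ⟨P, Q⟩ h _
    simp only [Finset.mem_product, mem_arr] at h ⊢
    obtain ⟨⟨hP, hP'⟩, hQ, hQ'⟩ := h
    refine ⟨?_, ?_⟩
    · rw [List.nodup_append]
      refine ⟨hP, hQ, ?_⟩
      intro a ha b hb hab
      subst hab
      rw [hP'] at ha
      rw [hQ'] at hb
      exact Finset.disjoint_left.1 hAB ha hb
    · intro x
      rw [List.mem_append, Finset.mem_union, hP', hQ']
  · rintro ⟨P, Q⟩ h _ ⟨P', Q'⟩ h' _ heq
    simp only [Finset.mem_product, mem_arr] at h h' heq
    obtain ⟨⟨hP, hP1⟩, hQ, hQ1⟩ := h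
    obtain ⟨⟨hP', hP1'⟩, hQ', hQ1'⟩ := h'
    have hlen : P.length = P'.length := by
      apply List.Perm.length_eq
      rw [List.perm_ext_iff_of_nodup hP hP']
      intro x
      rw [hP1, hP1']
    have := List.append_inj heq hlen
    rw [this.1, this.2]
  · intro l hl hne
    obtain ⟨P, Q, rfl, hP, hQ⟩ := hf l hl hne
    rw [mem_arr] at hl
    obtain ⟨hnd, hmem⟩ := hl
    rw [List.nodup_append] at hnd
    obtain ⟨hP1, hQ1, hdis⟩ := hnd
    refine ⟨(P, Q), ?_, hne, rfl⟩
    simp only [Finset.mem_product, mem_arr]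
    refine ⟨⟨hP1, ?_⟩, hQ1, ?_⟩
    · intro x
      refine ⟨hP x, ?_⟩
      intro hx
      have := (hmem x).2 (Finset.mem_union_left _ hx)
      rw [List.mem_append] at this
      rcases this with h | h
      · exact h
      · exact absurd (hQ x h) (Finset.disjoint_left.1 hAB hx)
    · intro x
      refine ⟨hQ x, ?_⟩
      intro hx
      have := (hmem x).2 (Finset.mem_union_right _ hx)
      rw [List.mem_append] at this
      rcases this with h | h
      · exact absurd (hP x h) (Finset.disjoint_right.1 hAB hx)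
      · exact h
  · rintro ⟨P, Q⟩ _ _
    rfl

theorem bad_append (x y : ℕ) (P Q : List ℕ) : bad x y (P ++ Q) ↔ bad x y P ∨ bad x y Q ∨
    ((∃ c ∈ P, max x y < c) ∧ ∃ d ∈ Q, min x y < d ∧ d < max x y) := by
  induction P with
  | nil => simp [bad]
  | cons c P ih =>
    rw [List.cons_append]
    simp only [bad]
    rw [ih]
    constructor
    · rintro (⟨h1, d, hd, h2⟩ | h | h | ⟨⟨c', hc', h1⟩, h2⟩)
      · rw [List.mem_append] at hd
        rcases hd with hd | hd
        · exact Or.inl (Or.inl ⟨h1, d, hd, h2⟩)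
        · exact Or.inr (Or.inr ⟨⟨c, by simp, h1⟩, d, hd, h2⟩)
      · exact Or.inl (Or.inr h)
      · exact Or.inr (Or.inl h)
      · exact Or.inr (Or.inr ⟨⟨c', by simp [hc'], h1⟩, h2⟩)
    · rintro ((⟨h1, d, hd, h2⟩ | h) | h | ⟨⟨c', hc', h1⟩, d, hd, h2⟩)
      · exact Or.inl ⟨h1, d, by simp [hd], h2⟩
      · exact Or.inr (Or.inl h)
      · exact Or.inr (Or.inr (Or.inl h))
      · rw [List.mem_cons] at hc'
        rcases hc' with rfl | hc'
        · exact Or.inl ⟨h1, d, by simp [hd], h2⟩
        · exact Or.inr (Or.inr (Or.inr ⟨⟨c', hc', h1⟩, d, hd, h2⟩))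

theorem bad_max (x y M : ℕ) (P S : List ℕ) (hx : x < M) (hy : y < M)
    (hS : ∀ z ∈ S, z < M) :
    bad x y (P ++ M :: S) ↔ bad x y P ∨ ∃ d ∈ S, min x y < d ∧ d < max x y := by
  rw [bad_append]
  have hM : max x y < M := max_lt hx hy
  have hbS : bad x y S → ∃ d ∈ S, min x y < d ∧ d < max x y := by
    clear hS
    induction S with
    | nil => simp [bad]
    | cons c S ih =>
      simp only [bad]
      rintro (⟨_, d, hd, h⟩ | h)
      · exact ⟨d, by simp [hd], h⟩
      · obtain ⟨d, hd, h⟩ := ih h
        exact ⟨d, by simp [hd], h⟩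
  simp only [bad]
  constructor
  · rintro (h | (⟨_, h⟩ | h) | ⟨_, d, hd, h1, h2⟩)
    · exact Or.inl h
    · exact Or.inr h
    · exact Or.inr (hbS h)
    · rw [List.mem_cons] at hd
      rcases hd with rfl | hd
      · omega
      · exact Or.inr ⟨d, hd, h1, h2⟩
  · rintro (h | h)
    · exact Or.inl h
    · exact Or.inr (Or.inl (Or.inl ⟨hM, h⟩))

theorem av_max (M : ℕ) (P S : List ℕ) (hP : ∀ z ∈ P, z < M) (hS : ∀ z ∈ S, z < M) :
    Av R (P ++ M :: S) ↔ (Av R P ∧ NS R S.toFinset P) ∧ Av R S := by
  have hnb : ∀ z, ∀ L : List ℕ, (∀ w ∈ L, w < M) → ¬ bad z M L := by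
    intro z L hL
    induction L with
    | nil => simp [bad]
    | cons c L ih =>
      simp only [bad]
      rintro (⟨h, _⟩ | h)
      · have := hL c (by simp)
        have : M ≤ max z M := le_max_right _ _
        omega
      · exact ih (fun w hw => hL w (by simp [hw])) h
  have hnb' : ∀ z, ∀ L : List ℕ, (∀ w ∈ L, w < M) → ¬ bad M z L := by
    intro z L hL
    induction L with
    | nil => simp [bad]
    | cons c L ih =>
      simp only [bad]
      rintro (⟨h, _⟩ | h)
      · have := hL c (by simp)
        have : M ≤ max M z := le_max_left _ _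
        omega
      · exact ih (fun w hw => hL w (by simp [hw])) h
  have h0 : Av R (M :: S) ↔ Av R S := by
    cases S with
    | nil => simp [Av]
    | cons y S =>
      simp only [Av]
      have := hnb' y S (fun w hw => hS w (by simp [hw]))
      tauto
  induction P with
  | nil => simp [Av, NS, h0]
  | cons x P ih =>
    cases P with
    | nil =>
      rw [List.cons_append, List.nil_append]
      simp only [Av, NS]
      have := hnb x S hS
      rw [h0]
      tauto
    | cons y P =>
      rw [List.cons_append, List.cons_append]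
      simp only [Av, NS]
      have ih' : Av R (y :: (P ++ M :: S)) ↔
          (Av R (y :: P) ∧ NS R S.toFinset (y :: P)) ∧ Av R S :=
        ih (fun z hz => hP z (List.mem_cons_of_mem _ hz))
      have hb := bad_max x y M P S (hP _ (by simp)) (hP _ (by simp)) hS
      have : (∃ d ∈ S, min x y < d ∧ d < max x y) ↔
          ¬ (∀ d ∈ S.toFinset, ¬ (min x y < d ∧ d < max x y)) := by
        push Not
        simp
      rw [this] at hb
      tauto

theorem ns_empty (P : List ℕ) : NS R ∅ P := by
  induction P with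
  | nil => simp [NS]
  | cons x P ih =>
    cases P with
    | nil => simp [NS]
    | cons y P => simp only [NS]; exact ⟨by simp, ih⟩

theorem cnt_max_lt (M : ℕ) (P S : List ℕ) (hP : ∀ z ∈ P, z < M) (hS : ∀ z ∈ S, z < M) :
    cnt (· < ·) (P ++ M :: S) = cnt (· < ·) P + cnt (· < ·) S + if S = [] then 0 else 1 := by
  induction P with
  | nil =>
    cases S with
    | nil => simp [cnt]
    | cons y S =>
      have := hS y (by simp)
      simp only [List.nil_append, cnt]
      rw [if_neg (by omega), if_neg (by simp)]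
      omega
  | cons x P ih =>
    have ih' := ih (fun z hz => hP z (by simp [hz]))
    cases P with
    | nil =>
      have := hP x (by simp)
      simp only [List.nil_append, List.cons_append, cnt] at ih' ⊢
      rw [if_pos this]
      omega
    | cons y P =>
      simp only [List.cons_append, cnt] at ih' ⊢
      omega

theorem cnt_max_gt (M : ℕ) (P S : List ℕ) (hP : ∀ z ∈ P, z < M) (hS : ∀ z ∈ S, z < M) :
    cnt (· > ·) (P ++ M :: S) = cnt (· > ·) P + cnt (· > ·) S + if P = [] then 0 else 1 := by
  induction P with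
  | nil =>
    cases S with
    | nil => simp [cnt]
    | cons y S =>
      have := hS y (by simp)
      simp only [List.nil_append, cnt]
      rw [if_pos (by omega)]
      simp
  | cons x P ih =>
    have ih' := ih (fun z hz => hP z (by simp [hz]))
    cases P with
    | nil =>
      have := hP x (by simp)
      simp only [List.nil_append, List.cons_append, cnt, if_true] at ih' ⊢
      have h1 : ¬ x > M := by omega
      have h2 : ¬ [x] = [] := by simp
      rw [if_neg h1, if_neg h2]
      omega
    | cons y P =>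
      simp only [List.cons_append, cnt] at ih' ⊢
      have h2 : ¬ y :: P = [] := by simp
      have h3 : ¬ x :: y :: P = [] := by simp
      rw [if_neg h2] at ih'
      rw [if_neg h3]
      omega

/-- concatenation -/
theorem av_append (P Q : List ℕ) (h1 : ∀ x ∈ P, ∀ y ∈ Q, ¬ R x y)
    (h2 : ∀ x ∈ P, ∀ y ∈ P, ∀ d ∈ Q, ¬ (min x y < d ∧ d < max x y)) :
    Av R (P ++ Q) ↔ Av R P ∧ Av R Q := by
  have hbad : ∀ x ∈ P, ∀ y ∈ P, ∀ L : List ℕ, (∀ z ∈ L, z ∈ Q) → ¬ bad x y L := by
    intro x hx y hy L hL
    induction L with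
    | nil => simp [bad]
    | cons c L ih =>
      simp only [bad]
      rintro (⟨_, d, hd, h⟩ | h)
      · exact h2 x hx y hy d (hL d (by simp [hd])) h
      · exact ih (fun z hz => hL z (by simp [hz])) h
  induction P with
  | nil => simp [Av]
  | cons x P ih =>
    cases P with
    | nil =>
      cases Q with
      | nil => simp [Av]
      | cons y Q =>
        simp only [List.cons_append, List.nil_append, Av]
        have := h1 x (by simp) y (by simp)
        tauto
    | cons y P =>
      have ih' := ih (fun x hx => h1 x (by simp [List.mem_cons.1 hx]))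
        (fun x hx y hy => h2 x (by simp [List.mem_cons.1 hx]) y (by simp [List.mem_cons.1 hy]))
        (fun x hx y hy => hbad x (by simp [List.mem_cons.1 hx]) y (by simp [List.mem_cons.1 hy]))
      rw [List.cons_append] at ih'
      simp only [List.cons_append, Av]
      have hb := bad_append x y P Q
      have e1 := hbad x (by simp) y (by simp) Q (fun _ h => h)
      have e2 : ¬ ∃ d ∈ Q, min x y < d ∧ d < max x y := by
        rintro ⟨d, hd, h⟩
        exact h2 x (by simp) y (by simp) d hd h
      have hb' : bad x y (P ++ Q) ↔ bad x y P := by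
        rw [hb]
        simp only [e1, e2, and_false, or_false]
      simp only [hb', ih']
      tauto

theorem ns_append (T : Finset ℕ) (P Q : List ℕ) (h1 : ∀ x ∈ P, ∀ y ∈ Q, ¬ R x y) :
    NS R T (P ++ Q) ↔ NS R T P ∧ NS R T Q := by
  induction P with
  | nil => simp [NS]
  | cons x P ih =>
    cases P with
    | nil =>
      cases Q with
      | nil => simp [NS]
      | cons y Q =>
        simp only [List.cons_append, List.nil_append, NS]
        have := h1 x (by simp) y (by simp)
        tauto
    | cons y P =>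
      have ih' := ih (fun x hx => h1 x (by simp [List.mem_cons.1 hx]))
      rw [List.cons_append] at ih'
      simp only [List.cons_append, NS]
      rw [ih']
      tauto

theorem cnt_append (P Q : List ℕ) (h1 : ∀ x ∈ P, ∀ y ∈ Q, ¬ R x y) (hP : P ≠ []) (hQ : Q ≠ []) :
    cnt R (P ++ Q) = 1 + cnt R P + cnt R Q := by
  induction P with
  | nil => exact absurd rfl hP
  | cons x P ih =>
    cases P with
    | nil =>
      cases Q with
      | nil => exact absurd rfl hQ
      | cons y Q =>
        simp only [List.cons_append, List.nil_append, cnt]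
        have := h1 x (by simp) y (by simp)
        rw [if_neg this]
    | cons y P =>
      have ih' := ih (fun x hx => h1 x (by simp [List.mem_cons.1 hx])) (by simp)
      rw [List.cons_append] at ih'
      simp only [List.cons_append, cnt]
      omega

theorem wt_append (T : Finset ℕ) (P Q : List ℕ) (h1 : ∀ x ∈ P, ∀ y ∈ Q, ¬ R x y)
    (h2 : ∀ x ∈ P, ∀ y ∈ P, ∀ d ∈ Q, ¬ (min x y < d ∧ d < max x y))
    (hP : P ≠ []) (hQ : Q ≠ []) : wt R T (P ++ Q) = X * wt R T P * wt R T Q := by
  unfold wt
  rw [av_append R P Q h1 h2, ns_append R T P Q h1, cnt_append R P Q h1 hP hQ]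
  by_cases hA : Av R P ∧ NS R T P
  · by_cases hB : Av R Q ∧ NS R T Q
    · rw [if_pos hA, if_pos hB, if_pos ⟨⟨hA.1, hB.1⟩, hA.2, hB.2⟩]
      ring
    · rw [if_neg hB, if_neg (by tauto)]
      ring
  · rw [if_neg hA, if_neg (by tauto)]
    ring

theorem wt_max_lt (M : ℕ) (P S : List ℕ) (hP : ∀ z ∈ P, z < M) (hS : ∀ z ∈ S, z < M) :
    wt (· < ·) ∅ (P ++ M :: S) = (if S = [] then 1 else X) *
      wt (· < ·) S.toFinset P * wt (· < ·) ∅ S := by
  unfold wt
  rw [av_max _ M P S hP hS, cnt_max_lt M P S hP hS]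
  have e1 := ns_empty (· < ·) (P ++ M :: S)
  have e2 := ns_empty (· < ·) S
  by_cases hA : Av (· < ·) P ∧ NS (· < ·) S.toFinset P
  · by_cases hB : Av (· < ·) S
    · simp only [hA, hB, e1, e2, and_self, if_true]
      split_ifs <;> ring
    · simp only [hB, and_false, false_and, if_false, mul_zero]
  · simp only [hA, false_and, if_false, mul_zero, zero_mul]

theorem wt_max_gt (M : ℕ) (P S : List ℕ) (hP : ∀ z ∈ P, z < M) (hS : ∀ z ∈ S, z < M) :
    wt (· > ·) ∅ (P ++ M :: S) = (if P = [] then 1 else X) *
      wt (· > ·) S.toFinset P * wt (· > ·) ∅ S := by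
  unfold wt
  rw [av_max _ M P S hP hS, cnt_max_gt M P S hP hS]
  have e1 := ns_empty (· > ·) (P ++ M :: S)
  have e2 := ns_empty (· > ·) S
  by_cases hA : Av (· > ·) P ∧ NS (· > ·) S.toFinset P
  · by_cases hB : Av (· > ·) S
    · simp only [hA, hB, e1, e2, and_self, if_true]
      split_ifs <;> ring
    · simp only [hB, and_false, false_and, if_false, mul_zero]
  · simp only [hA, false_and, if_false, mul_zero, zero_mul]

/-- a list in which no `R`-pair crosses from `A` to `B` where `R a b` never holds for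
`a ∈ A`, `b ∈ B` but pairs `b, a` violate `NS`. -/
theorem ns_split (T : Finset ℕ) (A B : Finset ℕ) (l : List ℕ)
    (hl : ∀ x ∈ l, x ∈ A ∪ B) (hNS : NS R T l)
    (h : ∀ a ∈ A, ∀ b ∈ B, R b a ∧ ∃ t ∈ T, min b a < t ∧ t < max b a) :
    ∃ P Q, l = P ++ Q ∧ (∀ x ∈ P, x ∈ A) ∧ (∀ x ∈ Q, x ∈ B) := by
  induction l with
  | nil => exact ⟨[], [], rfl, by simp, by simp⟩
  | cons x l ih =>
    cases l with
    | nil =>
      have := hl x (by simp)
      rw [Finset.mem_union] at this
      rcases this with hx | hx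
      · exact ⟨[x], [], rfl, by simpa using hx, by simp⟩
      · exact ⟨[], [x], rfl, by simp, by simpa using hx⟩
    | cons y l =>
      simp only [NS] at hNS
      obtain ⟨P, Q, hPQ, hP, hQ⟩ := ih (fun z hz => hl z (List.mem_cons_of_mem _ hz)) hNS.2
      have := hl x (by simp)
      rw [Finset.mem_union] at this
      rcases this with hx | hx
      · refine ⟨x :: P, Q, by rw [hPQ]; rfl, ?_, hQ⟩
        intro z hz
        rw [List.mem_cons] at hz
        rcases hz with rfl | hz
        · exact hx
        · exact hP z hz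
      · cases P with
        | nil =>
          refine ⟨[], x :: y :: l, rfl, by simp, ?_⟩
          intro z hz
          rw [List.mem_cons] at hz
          rcases hz with rfl | hz
          · exact hx
          · rw [List.nil_append] at hPQ
            exact hQ z (hPQ ▸ hz)
        | cons p P =>
          rw [List.cons_append, List.cons.injEq] at hPQ
          have hy : y ∈ A := by
            rw [hPQ.1]; exact hP p (by simp)
          obtain ⟨h1, t, ht, h2⟩ := h y hy x hx
          exact absurd h2 (hNS.1 h1 t ht)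

theorem W_split (T A B : Finset ℕ) (hAB : Disjoint A B) (hA : A.Nonempty) (hB : B.Nonempty)
    (h : ∀ a ∈ A, ∀ b ∈ B, R b a ∧ ∃ t ∈ T, min b a < t ∧ t < max b a)
    (h1 : ∀ x ∈ A, ∀ y ∈ B, ¬ R x y)
    (h2 : ∀ x ∈ A, ∀ y ∈ A, ∀ d ∈ B, ¬ (min x y < d ∧ d < max x y)) :
    W R (A ∪ B) T = X * W R A T * W R B T := by
  unfold W
  rw [sum_arr_append A B hAB (wt R T)]
  · rw [mul_assoc, Finset.sum_mul_sum, Finset.mul_sum]
    apply Finset.sum_congr rfl
    intro P hP
    rw [Finset.mul_sum]
    apply Finset.sum_congr rfl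
    intro Q hQ
    rw [mem_arr] at hP hQ
    rw [← mul_assoc]
    apply wt_append
    · intro x hx y hy
      exact h1 x ((hP.2 x).1 hx) y ((hQ.2 y).1 hy)
    · intro x hx y hy d hd
      exact h2 x ((hP.2 x).1 hx) y ((hP.2 y).1 hy) d ((hQ.2 d).1 hd)
    · rintro rfl
      obtain ⟨a, ha⟩ := hA
      have := (hP.2 a).2 ha
      simp at this
    · rintro rfl
      obtain ⟨a, ha⟩ := hB
      have := (hQ.2 a).2 ha
      simp at this
  · intro l hl hne
    rw [mem_arr] at hl
    have : Av R l ∧ NS R T l := by
      by_contra hcon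
      apply hne
      unfold wt
      rw [if_neg hcon]
    exact ns_split R T A B l (fun x hx => (hl.2 x).1 hx) this.2 h

theorem W_nosep (T V : Finset ℕ) (h : ∀ x ∈ V, ∀ y ∈ V, ∀ t ∈ T, ¬ (min x y < t ∧ t < max x y)) :
    W R V T = W R V ∅ := by
  unfold W
  apply Finset.sum_congr rfl
  intro l hl
  rw [mem_arr] at hl
  unfold wt
  have h1 : NS R T l := by
    have : ∀ L : List ℕ, (∀ x ∈ L, x ∈ V) → NS R T L := by
      intro L hL
      induction L with
      | nil => simp [NS]
      | cons x L ih =>
        cases L with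
        | nil => simp [NS]
        | cons y L =>
          simp only [NS]
          exact ⟨fun _ => h x (hL _ (by simp)) y (hL _ (by simp)),
            ih (fun z hz => hL z (List.mem_cons_of_mem _ hz))⟩
    exact this l (fun x hx => (hl.2 x).1 hx)
  have h2 := ns_empty R l
  simp [h1, h2]

end Lists

theorem W_eq_of (T : Finset ℕ) : ∀ (n : ℕ) (V : Finset ℕ), V.card = n → Disjoint V T →
    (∀ V' ⊆ V, W (· < ·) V' ∅ = W (· > ·) V' ∅) → W (· < ·) V T = W (· > ·) V T := by
  intro n
  induction n using Nat.strong_induction_on with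
  | _ n ih =>
    intro V hV hdis hyp
    by_cases hsep : ∃ t ∈ T, (∃ x ∈ V, x < t) ∧ (∃ y ∈ V, t < y)
    · obtain ⟨t, ht, ⟨x, hx, hxt⟩, y, hy, hyt⟩ := hsep
      set A := V.filter (fun v => t < v) with hAdef
      set B := V.filter (fun v => v < t) with hBdef
      have hU : V = A ∪ B := by
        ext v
        simp only [hAdef, hBdef, Finset.mem_union, Finset.mem_filter]
        constructor
        · intro hv
          have : v ≠ t := by
            rintro rfl
            exact Finset.disjoint_left.1 hdis hv ht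
          rcases lt_or_gt_of_ne this with h | h
          · exact Or.inr ⟨hv, h⟩
          · exact Or.inl ⟨hv, h⟩
        · rintro (h | h)
          · exact h.1
          · exact h.1
      have hAB : Disjoint A B := by
        rw [Finset.disjoint_left]
        intro v hv hv'
        simp only [hAdef, hBdef, Finset.mem_filter] at hv hv'
        omega
      have hA : A.Nonempty := ⟨y, by simp [hAdef, hy, hyt]⟩
      have hB : B.Nonempty := ⟨x, by simp [hBdef, hx, hxt]⟩
      have hAm : ∀ a ∈ A, t < a := fun a ha => by simp [hAdef] at ha; exact ha.2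
      have hBm : ∀ a ∈ B, a < t := fun a ha => by simp [hBdef] at ha; exact ha.2
      have hcard : A.card + B.card = V.card := by
        rw [hU, Finset.card_union_of_disjoint hAB]
      have hA0 := hA.card_pos
      have hB0 := hB.card_pos
      have hAV : A ⊆ V := Finset.filter_subset _ _
      have hBV : B ⊆ V := Finset.filter_subset _ _
      have e1 : W (· < ·) V T = X * W (· < ·) A T * W (· < ·) B T := by
        rw [hU]
        apply W_split _ T A B hAB hA hB
        · intro a ha b hb
          have h1 := hAm a ha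
          have h2 := hBm b hb
          refine ⟨by show b < a; omega, t, ht, ?_, ?_⟩
          · exact min_lt_of_left_lt h2
          · exact lt_max_of_lt_right h1
        · intro a ha b hb
          have h1 := hAm a ha
          have h2 := hBm b hb
          show ¬ a < b
          omega
        · intro a ha b hb d hd h
          have h1 := hAm a ha
          have h2 := hAm b hb
          have h3 := hBm d hd
          have := lt_min h1 h2
          omega
      have e2 : W (· > ·) V T = X * W (· > ·) B T * W (· > ·) A T := by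
        rw [hU, Finset.union_comm]
        apply W_split _ T B A hAB.symm hB hA
        · intro b hb a ha
          have h1 := hAm a ha
          have h2 := hBm b hb
          refine ⟨by show a > b; omega, t, ht, ?_, ?_⟩
          · exact min_lt_of_right_lt h2
          · exact lt_max_of_lt_left h1
        · intro b hb a ha
          have h1 := hAm a ha
          have h2 := hBm b hb
          show ¬ b > a
          omega
        · intro a ha b hb d hd h
          have h1 := hBm a ha
          have h2 := hBm b hb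
          have h3 := hAm d hd
          have := max_lt h1 h2
          omega
      rw [e1, e2]
      rw [ih A.card (by omega) A rfl (Finset.disjoint_of_subset_left hAV hdis)
        (fun V' hV' => hyp V' (hV'.trans hAV)),
        ih B.card (by omega) B rfl (Finset.disjoint_of_subset_left hBV hdis)
        (fun V' hV' => hyp V' (hV'.trans hBV))]
      ring
    · have hno : ∀ x ∈ V, ∀ y ∈ V, ∀ t ∈ T, ¬ (min x y < t ∧ t < max x y) := by
        intro x hx y hy t ht h
        apply hsep
        refine ⟨t, ht, ?_, ?_⟩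
        · rcases min_lt_iff.1 h.1 with h' | h'
          · exact ⟨x, hx, h'⟩
          · exact ⟨y, hy, h'⟩
        · rcases lt_max_iff.1 h.2 with h' | h'
          · exact ⟨x, hx, h'⟩
          · exact ⟨y, hy, h'⟩
      rw [W_nosep _ T V hno, W_nosep _ T V hno]
      exact hyp V subset_rfl

theorem W_rec_lt (U : Finset ℕ) (M : ℕ) (hM : M ∈ U) (hmax : ∀ x ∈ U, x ≤ M) :
    W (· < ·) U ∅ = ∑ T ∈ (U.erase M).powerset,
      (if T = ∅ then 1 else X) * W (· < ·) ((U.erase M) \ T) T * W (· < ·) T ∅ := by
  unfold W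
  rw [sum_arr_decomp U M hM]
  apply Finset.sum_congr rfl
  intro T hT
  rw [mul_assoc, Finset.sum_mul_sum, Finset.mul_sum]
  apply Finset.sum_congr rfl
  intro P hP
  rw [Finset.mul_sum]
  apply Finset.sum_congr rfl
  intro S hS
  rw [← mul_assoc]
  rw [mem_arr] at hP hS
  rw [Finset.mem_powerset] at hT
  have hST : S.toFinset = T := by
    ext x; rw [List.mem_toFinset, hS.2]
  have hS0 : S = [] ↔ T = ∅ := by
    rw [← hST, List.toFinset_eq_empty_iff]
  have hltU : ∀ z ∈ U.erase M, z < M := by
    intro z hz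
    rw [Finset.mem_erase] at hz
    exact lt_of_le_of_ne (hmax z hz.2) hz.1
  rw [wt_max_lt M P S, hST]
  · simp only [hS0]
  · intro z hz
    rw [hP.2, Finset.mem_sdiff] at hz
    exact hltU z hz.1
  · intro z hz
    rw [hS.2] at hz
    exact hltU z (hT hz)

theorem W_rec_gt (U : Finset ℕ) (M : ℕ) (hM : M ∈ U) (hmax : ∀ x ∈ U, x ≤ M) :
    W (· > ·) U ∅ = ∑ T ∈ (U.erase M).powerset,
      (if (U.erase M) \ T = ∅ then 1 else X) * W (· > ·) ((U.erase M) \ T) T *
        W (· > ·) T ∅ := by
  unfold W
  rw [sum_arr_decomp U M hM]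
  apply Finset.sum_congr rfl
  intro T hT
  rw [mul_assoc, Finset.sum_mul_sum, Finset.mul_sum]
  apply Finset.sum_congr rfl
  intro P hP
  rw [Finset.mul_sum]
  apply Finset.sum_congr rfl
  intro S hS
  rw [← mul_assoc]
  rw [mem_arr] at hP hS
  rw [Finset.mem_powerset] at hT
  have hST : S.toFinset = T := by
    ext x; rw [List.mem_toFinset, hS.2]
  have hPT : P.toFinset = (U.erase M) \ T := by
    ext x; rw [List.mem_toFinset, hP.2]
  have hP0 : P = [] ↔ (U.erase M) \ T = ∅ := by
    rw [← hPT, List.toFinset_eq_empty_iff]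
  have hltU : ∀ z ∈ U.erase M, z < M := by
    intro z hz
    rw [Finset.mem_erase] at hz
    exact lt_of_le_of_ne (hmax z hz.2) hz.1
  rw [wt_max_gt M P S, hST]
  · simp only [hP0]
  · intro z hz
    rw [hP.2, Finset.mem_sdiff] at hz
    exact hltU z hz.1
  · intro z hz
    rw [hS.2] at hz
    exact hltU z (hT hz)

theorem W_empty (R : ℕ → ℕ → Prop) (T : Finset ℕ) : W R ∅ T = 1 := by
  unfold W
  have : arr ∅ = {[]} := by
    ext l
    rw [mem_arr, Finset.mem_singleton]
    constructor
    · rintro ⟨_, h⟩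
      rw [List.eq_nil_iff_forall_not_mem]
      intro a ha
      have := (h a).1 ha
      simp at this
    · rintro rfl
      simp
  rw [this, Finset.sum_singleton]
  simp [wt, Av, NS, cnt]

theorem sum_swap (s : Finset (Finset ℕ)) (a b : Finset ℕ) (ha : a ∈ s) (hb : b ∈ s)
    (hab : a ≠ b) (f g : Finset ℕ → ℤ[X]) (h1 : f a + f b = g a + g b)
    (h : ∀ x ∈ s, x ≠ a → x ≠ b → f x = g x) : ∑ x ∈ s, f x = ∑ x ∈ s, g x := by
  have hb' : b ∈ s.erase a := Finset.mem_erase.2 ⟨hab.symm, hb⟩
  rw [← Finset.add_sum_erase s f ha, ← Finset.add_sum_erase s g ha,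
    ← Finset.add_sum_erase _ f hb', ← Finset.add_sum_erase _ g hb', ← add_assoc, ← add_assoc, h1]
  congr 1
  apply Finset.sum_congr rfl
  intro x hx
  rw [Finset.mem_erase, Finset.mem_erase] at hx
  exact h x hx.2.2 hx.2.1 hx.1

theorem W_main : ∀ (n : ℕ) (U : Finset ℕ), U.card = n → W (· < ·) U ∅ = W (· > ·) U ∅ := by
  intro n
  induction n using Nat.strong_induction_on with
  | _ n ih =>
    intro U hU
    rcases U.eq_empty_or_nonempty with rfl | hne
    · rw [W_empty, W_empty]
    · obtain ⟨M, hM, hmax⟩ := U.exists_max_image id hne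
      simp only [id] at hmax
      rw [W_rec_lt U M hM hmax, W_rec_gt U M hM hmax]
      have hcard : (U.erase M).card < n := by
        rw [Finset.card_erase_of_mem hM]
        have := hne.card_pos
        omega
      set U' := U.erase M with hU'
      have ihU : ∀ V ⊆ U', W (· < ·) V ∅ = W (· > ·) V ∅ := fun V hV =>
        ih V.card (lt_of_le_of_lt (Finset.card_le_card hV) hcard) V rfl
      have hH : ∀ T ∈ U'.powerset, W (· < ·) (U' \ T) T = W (· > ·) (U' \ T) T := by
        intro T hT
        apply W_eq_of T _ _ rfl Finset.sdiff_disjoint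
        intro V' hV'
        exact ihU V' (hV'.trans Finset.sdiff_subset)
      rcases U'.eq_empty_or_nonempty with h0 | h0
      · rw [h0]
        simp [W_empty]
      · apply sum_swap U'.powerset ∅ U' (Finset.empty_mem_powerset _)
          (Finset.mem_powerset_self _) h0.ne_empty.symm
        · simp only [Finset.sdiff_empty, Finset.sdiff_self, W_empty, if_true,
            if_neg h0.ne_empty]
          rw [ihU U' subset_rfl]
          ring
        · intro T hT3 hT2 hT1
          have hTs := Finset.mem_powerset.1 hT3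
          have hne' : U' \ T ≠ ∅ := by
            intro h
            rw [Finset.sdiff_eq_empty_iff_subset] at h
            exact hT1 (Finset.Subset.antisymm hTs h)
          rw [if_neg hT2, if_neg hne', hH T hT3, ihU T hTs]

/-! ### transfer to permutations -/

theorem bad_ofFn (x y : ℕ) : ∀ (n : ℕ) (f : Fin n → ℕ), bad x y (List.ofFn f) ↔
    ∃ k l : Fin n, k < l ∧ max x y < f k ∧ min x y < f l ∧ f l < max x y := by
  intro n
  induction n with
  | zero => intro f; simp [bad]
  | succ n ih =>
    intro f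
    rw [List.ofFn_succ]
    simp only [bad]
    rw [ih]
    constructor
    · rintro (⟨h1, d, hd, h2⟩ | ⟨k, l, h⟩)
      · rw [List.mem_ofFn] at hd
        obtain ⟨i, rfl⟩ := hd
        exact ⟨0, i.succ, Fin.succ_pos i, h1, h2⟩
      · exact ⟨k.succ, l.succ, Fin.succ_lt_succ_iff.2 h.1, h.2⟩
    · rintro ⟨k, l, hkl, h1, h2⟩
      have hl : l ≠ 0 := by
        rintro rfl
        exact absurd hkl (Fin.not_lt_zero k)
      obtain ⟨l', rfl⟩ := Fin.exists_succ_eq.2 hl
      by_cases hk : k = 0
      · subst hk
        left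
        exact ⟨h1, _, List.mem_ofFn.2 ⟨l', rfl⟩, h2⟩
      · obtain ⟨k', rfl⟩ := Fin.exists_succ_eq.2 hk
        right
        exact ⟨k', l', Fin.succ_lt_succ_iff.1 hkl, h1, h2⟩

def OccF (R : ℕ → ℕ → Prop) {n : ℕ} (f : Fin n → ℕ) : Prop :=
  ∃ i j k l : Fin n, (j : ℕ) = i + 1 ∧ j < k ∧ k < l ∧ R (f i) (f j) ∧
    max (f i) (f j) < f k ∧ min (f i) (f j) < f l ∧ f l < max (f i) (f j)

theorem av_ofFn (R : ℕ → ℕ → Prop) : ∀ (n : ℕ) (f : Fin n → ℕ), Av R (List.ofFn f) ↔ ¬ OccF R f := by
  intro n
  induction n with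
  | zero =>
    intro f
    simp only [List.ofFn_zero, Av, true_iff]
    rintro ⟨i, _⟩
    exact i.elim0
  | succ n ih =>
    intro f
    cases n with
    | zero =>
      simp only [List.ofFn_succ, List.ofFn_zero, Av, true_iff]
      rintro ⟨i, j, _, _, h, _⟩
      omega
    | succ n =>
      rw [List.ofFn_succ]
      have e := ih (fun i => f i.succ)
      rw [List.ofFn_succ] at e ⊢
      simp only [Av]
      rw [e, bad_ofFn]
      rw [← not_or, not_iff_not]
      constructor
      · rintro (⟨hR, k, l, hkl, h⟩ | ⟨i, j, k, l, hij, hjk, hkl, h⟩)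
        · refine ⟨0, (0 : Fin (n+1)).succ, k.succ.succ, l.succ.succ, by simp, ?_, ?_, hR, h⟩
          · exact Fin.succ_lt_succ_iff.2 (Fin.succ_pos k)
          · exact Fin.succ_lt_succ_iff.2 (Fin.succ_lt_succ_iff.2 hkl)
        · refine ⟨i.succ, j.succ, k.succ, l.succ, by simp [hij], Fin.succ_lt_succ_iff.2 hjk,
            Fin.succ_lt_succ_iff.2 hkl, h⟩
      · rintro ⟨i, j, k, l, hij, hjk, hkl, h⟩
        have hj : j ≠ 0 := by
          rintro rfl
          simp at hij
        obtain ⟨j', rfl⟩ := Fin.exists_succ_eq.2 hj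
        have hk : k ≠ 0 := by
          rintro rfl
          exact absurd hjk (Fin.not_lt_zero _)
        obtain ⟨k', rfl⟩ := Fin.exists_succ_eq.2 hk
        have hl : l ≠ 0 := by
          rintro rfl
          exact absurd hkl (Fin.not_lt_zero _)
        obtain ⟨l', rfl⟩ := Fin.exists_succ_eq.2 hl
        rw [Fin.succ_lt_succ_iff] at hjk hkl
        by_cases hi : i = 0
        · subst hi
          have hj' : j' = 0 := by
            ext
            simpa using hij
          subst hj'
          left
          have hk' : k' ≠ 0 := by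
            rintro rfl
            exact absurd hjk (Fin.not_lt_zero _)
          obtain ⟨k'', rfl⟩ := Fin.exists_succ_eq.2 hk'
          have hl' : l' ≠ 0 := by
            rintro rfl
            exact absurd hkl (Fin.not_lt_zero _)
          obtain ⟨l'', rfl⟩ := Fin.exists_succ_eq.2 hl'
          rw [Fin.succ_lt_succ_iff] at hkl
          exact ⟨h.1, k'', l'', hkl, h.2⟩
        · obtain ⟨i', rfl⟩ := Fin.exists_succ_eq.2 hi
          right
          refine ⟨i', j', k', l', ?_, hjk, hkl, h⟩
          simpa using hij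

theorem cnt_ofFn (R : ℕ → ℕ → Prop) : ∀ (n : ℕ) (f : Fin n → ℕ), cnt R (List.ofFn f) =
    (Finset.univ.filter (fun i : Fin n => ∃ j : Fin n, (j : ℕ) = i + 1 ∧ ¬ R (f i) (f j))).card := by
  intro n
  induction n with
  | zero =>
    intro f
    simp [cnt]
  | succ n ih =>
    intro f
    rw [Fin.card_filter_univ_succ]
    have hsucc : ∀ i : Fin n, (∃ j : Fin (n+1), (j : ℕ) = (i.succ : ℕ) + 1 ∧
        ¬ R (f i.succ) (f j)) ↔ ∃ j : Fin n, (j : ℕ) = i + 1 ∧ ¬ R (f i.succ) (f j.succ) := by
      intro i
      constructor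
      · rintro ⟨j, hj, h⟩
        have hj0 : j ≠ 0 := by
          rintro rfl
          simp at hj
        obtain ⟨j', rfl⟩ := Fin.exists_succ_eq.2 hj0
        exact ⟨j', by simpa using hj, h⟩
      · rintro ⟨j, hj, h⟩
        exact ⟨j.succ, by simpa using hj, h⟩
    have hset : (Finset.univ.filter (fun i : Fin n => ∃ j : Fin (n+1),
        (j : ℕ) = (i.succ : ℕ) + 1 ∧ ¬ R (f i.succ) (f j))).card = cnt R (List.ofFn (fun i => f i.succ)) := by
      rw [ih]
      congr 1
      ext i
      simp only [Finset.mem_filter, Finset.mem_univ, true_and]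
      exact hsucc i
    rw [hset]
    cases n with
    | zero =>
      have : ¬ ∃ j : Fin (0+1), (j : ℕ) = ((0 : Fin (0+1)) : ℕ) + 1 ∧ ¬ R (f 0) (f j) := by
        rintro ⟨j, hj, _⟩
        omega
      rw [if_neg this]
      simp [cnt]
    | succ n =>
      rw [List.ofFn_succ, List.ofFn_succ]
      simp only [cnt]
      have : (∃ j : Fin (n+1+1), (j : ℕ) = ((0 : Fin (n+1+1)) : ℕ) + 1 ∧ ¬ R (f 0) (f j)) ↔
          ¬ R (f 0) (f (0 : Fin (n+1)).succ) := by
        constructor
        · rintro ⟨j, hj, h⟩
          have : j = (0 : Fin (n+1)).succ := by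
            ext
            simpa using hj
          rwa [this] at h
        · intro h
          exact ⟨_, by simp, h⟩
      by_cases hR : R (f 0) (f (0 : Fin (n+1)).succ)
      · rw [if_pos hR, if_neg (fun h => this.1 h hR), zero_add]
      · rw [if_neg hR, if_pos (this.2 hR), add_comm]

/-- the word of a permutation -/
def word {n : ℕ} (σ : Equiv.Perm (Fin n)) : List ℕ := List.ofFn (fun i => (σ i : ℕ))

theorem sum_word (n : ℕ) (F : List ℕ → ℤ[X]) :
    ∑ σ : Equiv.Perm (Fin n), F (word σ) = ∑ l ∈ arr (Finset.range n), F l := by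
  apply Finset.sum_bij (fun σ _ => word σ)
  · intro σ _
    rw [mem_arr]
    refine ⟨?_, ?_⟩
    · unfold word
      rw [List.nodup_ofFn]
      intro i j hij
      exact σ.injective (Fin.ext hij)
    · intro x
      unfold word
      rw [List.mem_ofFn, Finset.mem_range]
      constructor
      · rintro ⟨i, rfl⟩
        exact (σ i).isLt
      · intro hx
        refine ⟨σ.symm ⟨x, hx⟩, ?_⟩
        simp
  · intro σ _ τ _ h
    unfold word at h
    rw [List.ofFn_inj] at h
    ext i
    exact congrFun h i
  · intro l hl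
    rw [mem_arr] at hl
    obtain ⟨hnd, hmem⟩ := hl
    have hlen : l.length = n := by
      rw [← List.toFinset_card_of_nodup hnd]
      have : l.toFinset = Finset.range n := by
        ext x
        rw [List.mem_toFinset, hmem]
      rw [this, Finset.card_range]
    have hlt : ∀ i : Fin n, l[(i : ℕ)]'(by omega) < n := by
      intro i
      have := (hmem (l[(i : ℕ)]'(by omega))).1 (List.getElem_mem _)
      simpa using this
    let g : Fin n → Fin n := fun i => ⟨l[(i : ℕ)]'(by omega), hlt i⟩
    have hg : Function.Injective g := by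
      intro i j hij
      have : l[(i : ℕ)]'(by omega) = l[(j : ℕ)]'(by omega) := congrArg Fin.val hij
      rw [hnd.getElem_inj_iff] at this
      exact Fin.ext this
    have hg' : Function.Bijective g := Finite.injective_iff_bijective.1 hg
    refine ⟨Equiv.ofBijective g hg', Finset.mem_univ _, ?_⟩
    unfold word
    apply List.ext_getElem
    · simp [hlen]
    · intro i h1 h2
      rw [List.getElem_ofFn]
      rfl
  · intro σ _
    rfl

theorem contains_occ {n : ℕ} (σ : Equiv.Perm (Fin n)) :
    Contains ![1, 3, 4, 2] σ ↔ OccF (· < ·) (fun i => (σ i : ℕ)) := by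
  constructor
  · rintro ⟨i, hi, h1, h⟩
    have h01 : σ (i 0) < σ (i 1) := (h 0 1).2 (by decide)
    have h12 : σ (i 1) < σ (i 2) := (h 1 2).2 (by decide)
    have h03 : σ (i 0) < σ (i 3) := (h 0 3).2 (by decide)
    have h31 : σ (i 3) < σ (i 1) := (h 3 1).2 (by decide)
    rw [Fin.lt_def] at h01 h12 h03 h31
    refine ⟨i 0, i 1, i 2, i 3, h1, hi (by decide), hi (by decide), h01, ?_, ?_, ?_⟩
    · exact max_lt (lt_trans h01 h12) h12
    · exact min_lt_of_left_lt h03
    · exact lt_max_of_lt_right h31
  · rintro ⟨i, j, k, l, hij, hjk, hkl, hR, h1, h2, h3⟩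
    have hR' : (σ i : ℕ) < σ j := hR
    rw [max_eq_right hR'.le] at h1 h3
    rw [min_eq_left hR'.le] at h2
    have a1 : σ i < σ j := hR'
    have a2 : σ j < σ k := h1
    have a3 : σ i < σ l := h2
    have a4 : σ l < σ j := h3
    refine ⟨![i, j, k, l], ?_, hij, ?_⟩
    · have hij' : i < j := by rw [Fin.lt_def]; omega
      rw [Fin.strictMono_iff_lt_succ]
      intro a
      fin_cases a
      · exact hij'
      · exact hjk
      · exact hkl
    · intro a b
      fin_cases a <;> fin_cases b <;> simp <;> order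

theorem contains_occ' {n : ℕ} (σ : Equiv.Perm (Fin n)) :
    Contains ![2, 4, 1, 3] (σ.trans Fin.revPerm) ↔ OccF (· > ·) (fun i => (σ i : ℕ)) := by
  have key : ∀ a b : Fin n, (σ.trans Fin.revPerm) a < (σ.trans Fin.revPerm) b ↔ σ b < σ a := by
    intro a b
    simp
  unfold Contains
  simp only [key]
  constructor
  · rintro ⟨i, hi, h1, h⟩
    have h01 : σ (i 1) < σ (i 0) := (h 0 1).2 (by decide)
    have h12 : σ (i 0) < σ (i 2) := (h 2 0).2 (by decide)
    have h03 : σ (i 1) < σ (i 3) := (h 3 1).2 (by decide)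
    have h31 : σ (i 3) < σ (i 0) := (h 0 3).2 (by decide)
    rw [Fin.lt_def] at h01 h12 h03 h31
    refine ⟨i 0, i 1, i 2, i 3, h1, hi (by decide), hi (by decide), h01, ?_, ?_, ?_⟩
    · exact max_lt h12 (lt_trans h01 h12)
    · exact min_lt_of_right_lt h03
    · exact lt_max_of_lt_left h31
  · rintro ⟨i, j, k, l, hij, hjk, hkl, hR, h1, h2, h3⟩
    have hR' : (σ j : ℕ) < σ i := hR
    rw [max_eq_left hR'.le] at h1 h3
    rw [min_eq_right hR'.le] at h2
    have a1 : σ j < σ i := hR'
    have a2 : σ i < σ k := h1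
    have a3 : σ j < σ l := h2
    have a4 : σ l < σ i := h3
    refine ⟨![i, j, k, l], ?_, hij, ?_⟩
    · have hij' : i < j := by rw [Fin.lt_def]; omega
      rw [Fin.strictMono_iff_lt_succ]
      intro a
      fin_cases a
      · exact hij'
      · exact hjk
      · exact hkl
    · intro a b
      fin_cases a <;> fin_cases b <;> simp <;> order

theorem des_eq {n : ℕ} (σ : Equiv.Perm (Fin n)) : des σ = cnt (· < ·) (word σ) := by
  unfold des word
  rw [cnt_ofFn]
  congr 1
  ext i
  simp only [Finset.mem_filter, Finset.mem_univ, true_and]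
  constructor
  · rintro ⟨j, hj, h⟩
    rw [Fin.lt_def] at h
    exact ⟨j, hj, by omega⟩
  · rintro ⟨j, hj, h⟩
    refine ⟨j, hj, ?_⟩
    rw [Fin.lt_def]
    have : (σ i : ℕ) ≠ σ j := by
      intro h'
      have := σ.injective (Fin.ext h')
      rw [← this] at hj
      omega
    omega

theorem des_eq' {n : ℕ} (σ : Equiv.Perm (Fin n)) :
    des (σ.trans Fin.revPerm) = cnt (· > ·) (word σ) := by
  unfold des word
  rw [cnt_ofFn]
  congr 1
  ext i
  simp only [Finset.mem_filter, Finset.mem_univ, true_and]
  have key : ∀ a b : Fin n, (σ.trans Fin.revPerm) a < (σ.trans Fin.revPerm) b ↔ σ b < σ a := by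
    intro a b
    simp
  simp only [key]
  constructor
  · rintro ⟨j, hj, h⟩
    rw [Fin.lt_def] at h
    exact ⟨j, hj, by omega⟩
  · rintro ⟨j, hj, h⟩
    refine ⟨j, hj, ?_⟩
    rw [Fin.lt_def]
    have : (σ i : ℕ) ≠ σ j := by
      intro h'
      have := σ.injective (Fin.ext h')
      rw [← this] at hj
      omega
    omega

theorem desPoly_eq (n : ℕ) : desPoly n {![1, 3, 4, 2]} = W (· < ·) (Finset.range n) ∅ := by
  unfold desPoly W
  rw [← sum_word, Finset.sum_filter]
  apply Finset.sum_congr rfl
  intro σ _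
  have h := contains_occ σ
  have h2 := av_ofFn (· < ·) n (fun i => (σ i : ℕ))
  have h3 : Av (· < ·) (word σ) ↔ ¬ Contains ![1, 3, 4, 2] σ := by
    rw [h, ← h2]; rfl
  unfold wt
  rw [des_eq]
  by_cases hc : Contains ![1, 3, 4, 2] σ
  · rw [if_neg, if_neg]
    · rw [h3]; tauto
    · intro h'
      exact h' _ rfl hc
  · rw [if_pos, if_pos]
    · exact ⟨h3.2 hc, ns_empty _ _⟩
    · intro p hp
      rw [Set.mem_singleton_iff] at hp
      rw [hp]
      exact hc

theorem desPoly_eq' (n : ℕ) : desPoly n {![2, 4, 1, 3]} = W (· > ·) (Finset.range n) ∅ := by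
  unfold desPoly W
  rw [← sum_word, Finset.sum_filter]
  symm
  apply Fintype.sum_equiv ((Equiv.refl (Fin n)).equivCongr Fin.revPerm)
  intro σ
  have h := contains_occ' σ
  have h2 := av_ofFn (· > ·) n (fun i => (σ i : ℕ))
  have h3 : Av (· > ·) (word σ) ↔ ¬ Contains ![2, 4, 1, 3] (σ.trans Fin.revPerm) := by
    rw [h, ← h2]; rfl
  have h4 : ((Equiv.refl (Fin n)).equivCongr Fin.revPerm) σ = σ.trans Fin.revPerm := by
    ext i
    simp
  unfold wt
  rw [h4, des_eq']
  by_cases hc : Contains ![2, 4, 1, 3] (σ.trans Fin.revPerm)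
  · rw [if_neg, if_neg]
    · intro h'
      exact h' _ rfl hc
    · rw [h3]; tauto
  · rw [if_pos, if_pos]
    · intro p hp
      rw [Set.mem_singleton_iff] at hp
      rw [hp]
      exact hc
    · exact ⟨h3.2 hc, ns_empty _ _⟩

/-- **Q2.** `{1342^}` and `{2413^}` are des-Wilf equivalent: for every `n ≥ 1` the descent
polynomials over the two avoidance classes agree. -/
theorem result : DesWilfEquivalent {![1, 3, 4, 2]} {![2, 4, 1, 3]} := by
  intro n _
  rw [desPoly_eq, desPoly_eq']
  exact W_main _ _ rfl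

end Pool.Agent.Results.MP_668c10_co.DesWilfQ2
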